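import Pool.Agent.Run7.h942.DG.Final

/-!
MP_55ef7c_ag, Q1 (negative answer): a dominant rational self-map of `P³` with dynamical degree `1`
whose degree sequence is comparable to `n⁴` along `n = 2^k`; hence no `ℓ ≤ 3` is possible.
-/

namespace Pool.Agent.Results.MP_55ef7c_ag.QuarticGrowth

open Pool.Agent.Run7.h942.DG Filter Topology MvPolynomial

/-- The statement asked in Q1 for the field `K` and the dimension `N`: for every dominant rational
self-map `F` of `P^N` with degree sequence `deg` and dynamical degree `δ` there is an integer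
`0 ≤ ℓ ≤ N` with `deg(f^n) ≍ n^ℓ δ^n`. -/
def DegreeConjecture (K : Type*) [Field K] (N : ℕ) : Prop :=
  ∀ (F : Fin (N + 1) → MvPolynomial (Fin (N + 1)) K) (d : ℕ), IsRatMap F d →
    AlgebraicIndependent K F → ∀ deg : ℕ → ℕ, (∀ n, IterDeg F n (deg n)) →
    ∀ δ : ℝ, Tendsto (fun n : ℕ => (deg n : ℝ) ^ ((1 : ℝ) / n)) atTop (𝓝 δ) →
    ∃ ℓ : ℕ, ℓ ≤ N ∧ Comparable (fun n => (deg n : ℝ)) (fun n => (n : ℝ) ^ ℓ * δ ^ n)

theorem tendsto_one {deg : ℕ → ℕ} (hne : ∀ n, deg n ≠ 0) {C : ℕ}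
    (hC : ∀ n, deg n ≤ C * (n + 1) ^ 16) :
    Tendsto (fun n : ℕ => (deg n : ℝ) ^ ((1 : ℝ) / n)) atTop (𝓝 1) := by
  have hC1 : (1 : ℝ) ≤ C := by
    have h0 := hC 0
    have h1 := hne 0
    have : 1 ≤ C := by
      have : 1 ≤ deg 0 := Nat.one_le_iff_ne_zero.mpr h1
      simp at h0
      omega
    exact_mod_cast this
  have lim : Tendsto (fun n : ℕ => ((C : ℝ) * 65536) ^ ((1 : ℝ) / n) * ((n : ℝ) ^ ((1 : ℝ) / n)) ^ 16)
      atTop (𝓝 1) := by
    have l1 : Tendsto (fun n : ℕ => ((C : ℝ) * 65536) ^ ((1 : ℝ) / n)) atTop (𝓝 1) := by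
      have h1 : Tendsto (fun n : ℕ => (1 : ℝ) / n) atTop (𝓝 0) :=
        tendsto_const_div_atTop_nhds_zero_nat 1
      have h2 := ((Real.continuousAt_const_rpow (a := (C : ℝ) * 65536) (b := 0)
        (by positivity)).tendsto).comp h1
      rw [Real.rpow_zero] at h2
      exact h2
    have l2 : Tendsto (fun n : ℕ => (n : ℝ) ^ ((1 : ℝ) / n)) atTop (𝓝 1) :=
      tendsto_rpow_div.comp tendsto_natCast_atTop_atTop
    have := l1.mul (l2.pow 16)
    simpa using this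
  refine tendsto_of_tendsto_of_tendsto_of_le_of_le' tendsto_const_nhds lim ?_ ?_
  · filter_upwards with n
    refine Real.one_le_rpow ?_ (by positivity)
    exact_mod_cast Nat.one_le_iff_ne_zero.mpr (hne n)
  · filter_upwards [eventually_ge_atTop 1] with n hn
    have hn' : (1 : ℝ) ≤ n := by exact_mod_cast hn
    have h1 : (deg n : ℝ) ≤ (C * 65536) * (n : ℝ) ^ 16 := by
      have h2 : (deg n : ℝ) ≤ C * ((n : ℝ) + 1) ^ 16 := by exact_mod_cast hC n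
      refine h2.trans ?_
      have h3 : ((n : ℝ) + 1) ^ 16 ≤ (2 * n) ^ 16 :=
        pow_le_pow_left₀ (by positivity) (by linarith) 16
      have h4 : ((2 : ℝ) * n) ^ 16 = 65536 * n ^ 16 := by ring
      rw [h4] at h3
      calc (C : ℝ) * ((n : ℝ) + 1) ^ 16 ≤ C * (65536 * n ^ 16) :=
            mul_le_mul_of_nonneg_left h3 (by positivity)
        _ = _ := by ring
    calc (deg n : ℝ) ^ ((1 : ℝ) / n) ≤ ((C * 65536) * (n : ℝ) ^ 16) ^ ((1 : ℝ) / n) :=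
          Real.rpow_le_rpow (by positivity) h1 (by positivity)
      _ = ((C : ℝ) * 65536) ^ ((1 : ℝ) / n) * ((n : ℝ) ^ ((1 : ℝ) / n)) ^ 16 := by
          rw [Real.mul_rpow (by positivity) (by positivity), ← Real.rpow_natCast (n : ℝ) 16,
            ← Real.rpow_mul (by positivity), mul_comm (((16 : ℕ) : ℝ)),
            Real.rpow_mul (by positivity), Real.rpow_natCast]

theorem not_comparable {deg : ℕ → ℕ} {C : ℕ}
    (hC : ∀ k, 1 ≤ k → 16 ^ k ≤ C * deg (2 ^ k) + C * 4 ^ k) {ℓ : ℕ} (hℓ : ℓ ≤ 3) :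
    ¬ Comparable (fun n => (deg n : ℝ)) (fun n => (n : ℝ) ^ ℓ * 1 ^ n) := by
  rintro ⟨c₁, c₂, c₃, h₁, h₂, h₃, h⟩
  -- pick `k` large
  obtain ⟨k₀, hk₀⟩ := pow_unbounded_of_one_lt (C * c₂ + C) (by norm_num : (1 : ℝ) < 2)
  obtain ⟨k₁, hk₁⟩ := pow_unbounded_of_one_lt c₃ (by norm_num : (1 : ℝ) < 2)
  obtain ⟨k, hk⟩ : ∃ k, k = k₀ + k₁ + 1 := ⟨_, rfl⟩
  have e1 : c₃ ≤ ((2 ^ k : ℕ) : ℝ) := by
    push_cast
    exact hk₁.le.trans (pow_le_pow_right₀ (by norm_num) (by omega))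
  have e2 := (h (2 ^ k) e1).2
  have e3 : (deg (2 ^ k) : ℝ) ≤ c₂ * 8 ^ k := by
    refine e2.trans ?_
    beta_reduce
    rw [one_pow, mul_one]
    refine mul_le_mul_of_nonneg_left ?_ h₂.le
    push_cast
    rw [← pow_mul, mul_comm, pow_mul]
    refine pow_le_pow_left₀ (by positivity) ?_ k
    calc (2 : ℝ) ^ ℓ ≤ 2 ^ 3 := pow_le_pow_right₀ (by norm_num) hℓ
      _ = 8 := by norm_num
  have e4 : (16 : ℝ) ^ k ≤ C * deg (2 ^ k) + C * 4 ^ k := by
    exact_mod_cast hC k (by omega)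
  have e5 : (4 : ℝ) ^ k ≤ 8 ^ k := pow_le_pow_left₀ (by norm_num) (by norm_num) k
  have e6 : (16 : ℝ) ^ k ≤ (C * c₂ + C) * 8 ^ k := by
    have hC0 : (0 : ℝ) ≤ C := by positivity
    nlinarith [mul_le_mul_of_nonneg_left e3 hC0, mul_le_mul_of_nonneg_left e5 hC0]
  have e7 : (16 : ℝ) ^ k = 2 ^ k * 8 ^ k := by
    rw [← mul_pow]; norm_num
  rw [e7] at e6
  have e8 : (2 : ℝ) ^ k ≤ C * c₂ + C := le_of_mul_le_mul_right e6 (by positivity)
  have e9 : (2 : ℝ) ^ k₀ ≤ 2 ^ k := pow_le_pow_right₀ (by norm_num) (by omega)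
  linarith

/-- **Negative answer to Q1.** For every field `K` of characteristic `0` the conjecture fails for
`N = 3`.  More precisely there is a dominant rational self-map `F` of `P³`, with
`deg n = deg(f^n)` for every `n` (and this degree is unique), such that `deg` is polynomially bounded
(so that the dynamical degree is `1`), is comparable to `n⁴` along `n = 2^k`, and is comparable to
`n^ℓ · 1^n` for no `ℓ ∈ {0,1,2,3}`. -/
theorem result (K : Type*) [Field K] [CharZero K] :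
    ¬ DegreeConjecture K 3 ∧
    ∃ (F : Fin 4 → MvPolynomial (Fin 4) K) (d : ℕ), IsRatMap F d ∧ AlgebraicIndependent K F ∧
      ∃ deg : ℕ → ℕ, (∀ n e, IterDeg F n e ↔ e = deg n) ∧
        (∃ C : ℕ, ∀ n, deg n ≤ C * (n + 1) ^ 16) ∧
        Tendsto (fun n : ℕ => (deg n : ℝ) ^ ((1 : ℝ) / n)) atTop (𝓝 1) ∧
        (∃ c₁ c₂ : ℝ, 0 < c₁ ∧ 0 < c₂ ∧ ∃ k₀ : ℕ, ∀ k ≥ k₀,
          c₁ * ((2 : ℝ) ^ k) ^ 4 ≤ deg (2 ^ k) ∧ (deg (2 ^ k) : ℝ) ≤ c₂ * ((2 : ℝ) ^ k) ^ 4) ∧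
        ∀ ℓ : ℕ, ℓ ≤ 3 →
          ¬ Comparable (fun n => (deg n : ℝ)) (fun n => (n : ℝ) ^ ℓ * 1 ^ n) := by
  obtain ⟨F, d, hF, hdom, deg, hdeg, hne, ⟨C₁, hC₁⟩, ⟨C₂, hC₂⟩, ⟨C₃, hC₃⟩⟩ := growth K
  have hlim := tendsto_one hne hC₁
  refine ⟨?_, F, d, hF, hdom, deg, hdeg, ⟨C₁, hC₁⟩, hlim, ?_, fun ℓ hℓ => not_comparable hC₃ hℓ⟩
  · intro hconj
    obtain ⟨ℓ, hℓ, hcomp⟩ := hconj F d hF hdom deg (fun n => (hdeg n _).mpr rfl) 1 hlim
    exact not_comparable hC₃ hℓ hcomp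
  · have hC₃0 : 0 < C₃ := by
      rcases Nat.eq_zero_or_pos C₃ with h | h
      · have := hC₃ 1 le_rfl
        rw [h] at this
        simp at this
      · exact h
    have hC₂0 : 0 < C₂ := by
      rcases Nat.eq_zero_or_pos C₂ with h | h
      · have := hC₂ 0
        rw [h] at this
        have h1 := hne (2 ^ 0)
        omega
      · exact h
    obtain ⟨k₀, hk₀⟩ := pow_unbounded_of_one_lt (2 * (C₃ : ℝ)) (by norm_num : (1 : ℝ) < 4)
    refine ⟨1 / (2 * C₃), C₂, by positivity, by exact_mod_cast hC₂0, k₀ + 1, fun k hk => ?_⟩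
    have h16 : (((2 : ℝ) ^ k) ^ 4) = 16 ^ k := by
      rw [← pow_mul, mul_comm, pow_mul]; norm_num
    rw [h16]
    constructor
    · have e4 : (16 : ℝ) ^ k ≤ C₃ * deg (2 ^ k) + C₃ * 4 ^ k := by
        exact_mod_cast hC₃ k (by omega)
      have e5 : 2 * (C₃ : ℝ) ≤ 4 ^ k :=
        hk₀.le.trans (pow_le_pow_right₀ (by norm_num) (by omega))
      have e6 : (16 : ℝ) ^ k = 4 ^ k * 4 ^ k := by
        rw [← mul_pow]; norm_num
      have hp : (0 : ℝ) < 4 ^ k := by positivity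
      rw [one_div_mul_eq_div, div_le_iff₀ (by positivity)]
      nlinarith
    · exact_mod_cast hC₂ k

end Pool.Agent.Results.MP_55ef7c_ag.QuarticGrowth
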